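import Pool.Agent.helper10.NDH.Main

/-!
# MP_c1e25c_ag: the ascending chain condition for minimal log discrepancies, and for a-lc
thresholds, on nondegenerate complete intersections in toric varieties

Partial result. For the toric, geometric meaning of the definitions see
`Pool.Agent.helper10.NDH.Defs`.
-/

namespace Pool.Agent.Results.MP_c1e25c_ag.NondegenerateACC

open Pool.Agent.helper10.NDH

theorem result (n r : ℕ) (Γ : Set ℝ) (hΓ : ∀ x ∈ Γ, 0 ≤ x)
    (hdcc : ¬ ∃ f : ℕ → ℝ, StrictAnti f ∧ ∀ k, f k ∈ Γ) (t : ℕ → Data n r)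
    (ht : ∀ k, HasCoeff Γ (t k)) :
    ∃ k, ∀ a : ℝ, 0 ≤ a → ∀ s : Fin r → ℝ, (∀ l, k < l → s ∈ thresholds a (t l)) →
      s ∈ thresholds a (t k) :=
  main n r Γ hΓ hdcc t ht

end Pool.Agent.Results.MP_c1e25c_ag.NondegenerateACC
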