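import Pool.Agent.helper20.TAU.Main

/-!
# The ascending chain condition for minimal log discrepancies and `a`-lc threshold polytopes of pairs
with a torus action

Let `Γ` be a set of nonnegative real numbers which satisfies the descending chain condition, and
`t 0, t 1, t 2, …` any sequence of generalized pairs `(X, B + M)` with divisors `D_j + N_j`, `j < m`,
where `X` is a `d`-dimensional general arrangement variety with elliptic fixed point `x` (a toric
variety, or a variety with a torus action of complexity one, or more generally with rational quotient
`X ⇢ ℙ^c` and critical values in hyperplanes in general position), all coefficients in `Γ` (for `B`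
and `D_j`: sums of elements of `Γ`). The polytope `thresholds c a (t l)` consists of all `s ≥ 0` such
that the minimal log discrepancy at `x` of `(X, B + M + ∑ s_j (D_j + N_j))` is at least `a`. Then there
is `k` such that for all `a ≥ 0` and all `s ≥ 0`: if this minimal log discrepancy is at least `a` for
all `t l` with `l > k`, then it is at least `a` for `t k`.

For `m = 0` this is the ascending chain condition for minimal log discrepancies. For fixed `a` it says
that there is no strictly increasing sequence of `a`-lc threshold polytopes (`m = 1`: of `a`-lc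
thresholds).

All definitions are in `Pool.Agent.helper20.TAT.Defs` and `Pool.Agent.helper22.ARR.Defs`.
-/

namespace Pool.Agent.Results.MP_c1e25c_ag.TorusActionACCThresholds

open Pool.Agent.helper20.TAT

theorem result (d m : ℕ) (Γ : Set ℝ) (hΓ : ∀ x ∈ Γ, 0 ≤ x)
    (hdcc : ¬ ∃ f : ℕ → ℝ, StrictAnti f ∧ ∀ k, f k ∈ Γ)
    (n c r : ℕ → ℕ) (hd : ∀ k, n k + c k = d)
    (t : ∀ k, Data (Fin (n k) ⊕ Fin (r k)) m) (ht : ∀ k, HasCoeff (c k) Γ (t k)) :
    ∃ k, ∀ a : ℝ, 0 ≤ a → ∀ s : Fin m → ℝ, (∀ l, k < l → s ∈ thresholds (c l) a (t l)) →
      s ∈ thresholds (c k) a (t k) :=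
  Pool.Agent.helper20.TAU.main d m Γ hΓ hdcc n c r hd t ht

end Pool.Agent.Results.MP_c1e25c_ag.TorusActionACCThresholds
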