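import Pool.Agent.helper20.BDA.Main

/-!
# Uniform boundedness of the invariant divisors which compute minimal log discrepancies of pairs
with a torus action

Let `Γ` be a set of nonnegative real numbers which satisfies the descending chain condition. There is
a real number `R`, depending only on `Γ` and on `d`, such that for every log canonical triple
`(X, B, ∏ a_j ^ μ_j)`, where `X` is a `d`-dimensional general arrangement variety with elliptic fixed
point `x`, all `μ_j` lie in `Γ` and the coefficients of `B` are finite sums of elements of `Γ`, the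
following holds. The minimal log discrepancy at `x` is computed by an invariant valuation `z` which is
primitive (or zero, if the cone is the whole space) and of the form `z = ∑ μ_i v_i + s diag` with
`μ_i ≥ 0` and `∑ μ_i + s ∑ psi_y ≤ R`. In particular `ψ(z) ≤ R` for each linear function `ψ` with
`ψ(v_i) ≤ 1` for all `i` and `∑ ψ_y = ∑ psi_y`. If the `v_i` are the primitive vectors of the
invariant prime divisors `D_i`, then the log discrepancy function of each pair `(X, B')` with
`K + B'` `ℝ`-Cartier and `B'` effective, invariant and supported on the union of the `D_i` is such a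
function `ψ`. So the divisor `E_z` over `X` which computes the minimal log discrepancy has log
discrepancy `a(E_z, X, B') ≤ R`; in particular `a(E_z, X, 0) ≤ R` if `X` is `ℚ`-Gorenstein.

This covers all toric triples and all triples with a torus action of complexity one (`c = 1`).
All definitions are in `Pool.Agent.helper22.ARR.Defs`.
-/

namespace Pool.Agent.Results.MP_c1e25c_ag.TorusActionBoundedDivisors

open Pool.Agent.helper22.ARR Pool.Agent.helper20.BDA

theorem result (d : ℕ) (Γ : Set ℝ) (hΓ : ∀ x ∈ Γ, 0 ≤ x)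
    (hdcc : ¬ ∃ f : ℕ → ℝ, StrictAnti f ∧ ∀ k, f k ∈ Γ) :
    ∃ R : ℝ, ∀ (n c r : ℕ) (t : GenPair (Fin n ⊕ Fin r)), n + c = d → IsLC c Γ t →
      ∃ (z : Fin n ⊕ Fin r → ℤ) (μ : Fin t.p → ℝ) (s : ℝ),
        Trop c z ∧ toReal z ∈ interior (bigCone t) ∧
        (∀ i, 0 ≤ μ i) ∧
        (∀ j, (z j : ℝ) = ∑ i, μ i * (t.v i j : ℝ) + s * (diag n r j : ℝ)) ∧
        ∑ i, μ i + s * ∑ y, t.psi (Sum.inr y) ≤ R ∧
        (∀ ψ : Fin n ⊕ Fin r → ℝ, (∀ i, ∑ j, ψ j * (t.v i j : ℝ) ≤ 1) →
          ∑ y, ψ (Sum.inr y) = ∑ y, t.psi (Sum.inr y) → ∑ j, ψ j * (z j : ℝ) ≤ R) ∧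
        (∀ (m : ℕ) (y : Fin n ⊕ Fin r → ℤ), 2 ≤ m → (∀ j, z j = m * y j) → z = 0) ∧
        logDisc t (toReal z) = mld c t := by
  obtain ⟨R, hR⟩ := main d Γ hΓ hdcc
  refine ⟨R, fun n c r t hd ht => ?_⟩
  obtain ⟨z, h1, h2, ⟨μ, s, h3, h4, h5⟩, h6, h7⟩ := hR n c r t hd ht
  refine ⟨z, μ, s, h1, h2, h3, h4, h5, fun ψ hψ1 hψ2 => ?_, h6, h7⟩
  have h8 : ∑ j, ψ j * (z j : ℝ) =
      ∑ i, μ i * ∑ j, ψ j * (t.v i j : ℝ) + s * ∑ y, ψ (Sum.inr y) := by
    have h9 : ∑ j, ψ j * (diag n r j : ℝ) = ∑ y, ψ (Sum.inr y) := by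
      simp [Fintype.sum_sum_type, Pool.Agent.helper22.ARR.diag]
    rw [← h9, Finset.mul_sum]
    simp only [h4, mul_add, Finset.sum_add_distrib, Finset.mul_sum]
    congr 1
    · rw [Finset.sum_comm]
      exact Finset.sum_congr rfl fun i _ => Finset.sum_congr rfl fun j _ => by ring
    · exact Finset.sum_congr rfl fun j _ => by ring
  rw [h8, hψ2]
  refine le_trans (add_le_add_left ?_ _) h5
  exact Finset.sum_le_sum fun i _ => by
    have := mul_le_mul_of_nonneg_left (hψ1 i) (h3 i)
    linarith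

end Pool.Agent.Results.MP_c1e25c_ag.TorusActionBoundedDivisors
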