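import Pool.Agent.helper20.TLS.Main

/-!
# Lower semicontinuity of minimal log discrepancies for pairs with a torus action

Let `(X, B, ∏ a_j ^ μ_j)` be a log canonical triple with real coefficients, where `X` is a general
arrangement variety of dimension `n + c` over `ℙ^c` with elliptic fixed point `x`, and let `z` be an
invariant valuation on `X` which is toroidal over the arrangement. Then the minimal log discrepancy
at `x` is at most the log discrepancy along `z` plus the dimension of the centre of `z`. So
`mld_x ≤ mld_W + dim W` for every invariant closed subvariety `W` which contains `x`, and the minimal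
log discrepancy does not rise under specialization to `x`.

This covers all toric triples and all triples with a torus action of complexity one (`c = 1`). The
definitions are in `Pool.Agent.helper22.ARR.Defs` and `Pool.Agent.helper20.TLS.Defs`.
-/

namespace Pool.Agent.Results.MP_c1e25c_ag.TorusActionSemicontinuity

open Pool.Agent.helper22.ARR Pool.Agent.helper20.TLS

theorem result (n c r : ℕ) (t : GenPair (Fin n ⊕ Fin r)) (ht : IsLC c (Set.Ici 0) t)
    (z : Fin n ⊕ Fin r → ℤ) (hz : Trop c z) (hz' : toReal z ∈ bigCone t) :
    mld c t ≤ logDisc t (toReal z) + centreDim c t z :=
  lsc ht (fun _ hx => hx) hz hz'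

end Pool.Agent.Results.MP_c1e25c_ag.TorusActionSemicontinuity
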